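import Mathlib

set_option autoImplicit false

open Matrix Finset
open scoped ComplexOrder

namespace Pool.Agent.Results.MP_25d917_an.Bound

noncomputable def q {n : ℕ} (v : Fin n → ℂ) : ℝ := ∑ i, ‖v i‖ ^ 2

noncomputable def fr {n : ℕ} (M : Matrix (Fin n) (Fin n) ℂ) : ℝ := ∑ i, ∑ j, ‖M i j‖ ^ 2

lemma q_nonneg {n : ℕ} (v : Fin n → ℂ) : 0 ≤ q v := sum_nonneg fun _ _ => sq_nonneg _

lemma fr_nonneg {n : ℕ} (M : Matrix (Fin n) (Fin n) ℂ) : 0 ≤ fr M :=
  sum_nonneg fun _ _ => sum_nonneg fun _ _ => sq_nonneg _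

lemma q_mulVec {n : ℕ} (M : Matrix (Fin n) (Fin n) ℂ) (v : Fin n → ℂ) :
    q (M *ᵥ v) ≤ fr M * q v := by
  unfold q fr
  rw [sum_mul]
  refine sum_le_sum fun i _ => ?_
  have h1 : ‖(M *ᵥ v) i‖ ≤ ∑ j, ‖M i j‖ * ‖v j‖ := by
    simp only [mulVec, dotProduct]
    exact (norm_sum_le _ _).trans (le_of_eq (sum_congr rfl fun j _ => norm_mul _ _))
  calc ‖(M *ᵥ v) i‖ ^ 2 ≤ (∑ j, ‖M i j‖ * ‖v j‖) ^ 2 := by gcongr
    _ ≤ _ := sum_mul_sq_le_sq_mul_sq _ _ _

lemma q_eq {n : ℕ} (v : Fin n → ℂ) : (q v : ℂ) = star v ⬝ᵥ v := by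
  simp only [q, dotProduct, Pi.star_apply]
  push_cast
  refine sum_congr rfl fun i _ => ?_
  rw [Complex.star_def, Complex.conj_mul']

lemma q_mul {n : ℕ} (M : Matrix (Fin n) (Fin n) ℂ) (v : Fin n → ℂ) :
    (q (M *ᵥ v) : ℂ) = star v ⬝ᵥ ((Mᴴ * M) *ᵥ v) := by
  rw [q_eq, star_mulVec, ← mulVec_mulVec, dotProduct_mulVec (star v) Mᴴ]

lemma fr_eq {n : ℕ} (M : Matrix (Fin n) (Fin n) ℂ) : (fr M : ℂ) = trace (Mᴴ * M) := by
  simp only [fr, trace, Matrix.diag_apply, Matrix.mul_apply, conjTranspose_apply]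
  push_cast
  rw [sum_comm]
  refine sum_congr rfl fun i _ => sum_congr rfl fun j _ => ?_
  rw [Complex.star_def, Complex.conj_mul']

lemma q_sub {n : ℕ} (v w : Fin n → ℂ) : q (v - w) ≤ 2 * q v + 2 * q w := by
  unfold q
  rw [mul_sum, mul_sum, ← sum_add_distrib]
  refine sum_le_sum fun i _ => ?_
  have h := norm_sub_le (v i) (w i)
  have h0 := norm_nonneg (v i - w i)
  simp only [Pi.sub_apply]
  nlinarith [sq_nonneg (‖v i‖ - ‖w i‖), norm_nonneg (v i), norm_nonneg (w i)]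

lemma re_inv (z : ℂ) (c : ℝ) (hc : 0 < c) (h : z.re ≤ -c) : -(z⁻¹).re ≤ 1 / c := by
  rw [Complex.inv_re, Complex.normSq_apply, ← neg_div]
  have h1 : 0 < z.re * z.re + z.im * z.im := by nlinarith [mul_self_nonneg z.im]
  rw [div_le_div_iff₀ h1 hc]
  nlinarith [mul_self_nonneg z.im]

lemma trace_inv {n : ℕ} (L : Matrix (Fin n) (Fin n) ℂ) (c : ℝ) (hc : 0 < c)
    (h : ∀ z ∈ spectrum ℂ L, z.re ≤ -c) : IsUnit L ∧ -(trace L⁻¹).re ≤ n / c := by
  have hu : IsUnit L := by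
    by_contra hn
    have := h 0 (by rwa [spectrum.zero_mem_iff])
    simp at this
    linarith
  refine ⟨hu, ?_⟩
  lift L to (Matrix (Fin n) (Fin n) ℂ)ˣ using hu
  rw [trace_eq_sum_roots_charpoly, ← coe_units_inv]
  have key : ∀ μ ∈ (charpoly ((L⁻¹ : (Matrix (Fin n) (Fin n) ℂ)ˣ) : Matrix (Fin n) (Fin n) ℂ)).roots,
      -μ.re ≤ 1 / c := by
    intro μ hμ
    have h1 := mem_spectrum_of_isRoot_charpoly (Polynomial.isRoot_of_mem_roots hμ)
    have h0 : μ ≠ 0 := by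
      rintro rfl
      exact (spectrum.zero_mem_iff ℂ).1 h1 (Units.isUnit _)
    have h2 := (spectrum.inv_mem_iff (r := Units.mk0 μ h0) (a := L⁻¹)).1 h1
    simp only [inv_inv, Units.val_inv_eq_inv_val, Units.val_mk0] at h2
    simpa using re_inv _ c hc (h _ h2)
  have hcard : (charpoly ((L⁻¹ : (Matrix (Fin n) (Fin n) ℂ)ˣ) :
      Matrix (Fin n) (Fin n) ℂ)).roots.card = n := by
    rw [IsAlgClosed.card_roots_eq_natDegree, charpoly_natDegree_eq_dim, Fintype.card_fin]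
  generalize (charpoly ((L⁻¹ : (Matrix (Fin n) (Fin n) ℂ)ˣ) : Matrix (Fin n) (Fin n) ℂ)).roots = s
    at key hcard
  rw [← hcard]
  clear hcard h
  induction s using Multiset.induction_on with
  | empty => simp
  | cons a s ih =>
    have h1 := key a (Multiset.mem_cons_self _ _)
    have h2 := ih fun μ hμ => key μ (Multiset.mem_cons_of_mem hμ)
    simp only [Multiset.sum_cons, Multiset.card_cons, Complex.add_re]
    push_cast
    rw [add_div]
    linarith

theorem result (n m : ℕ) (hmn : m < n) (A : Matrix (Fin n) (Fin n) ℂ) (hA : Aᴴ = -A) :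
    ∃ C : ℝ, ∀ (B : Matrix (Fin n) (Fin m) ℂ) (X : Matrix (Fin n) (Fin n) ℂ), X.PosDef →
      Aᴴ * X + X * A - X * B * Bᴴ * X + 1 = 0 →
      ∃ z ∈ spectrum ℂ (A - B * Bᴴ * X), -z.re ≤ C := by
  refine ⟨n * (2 * fr A + 2), fun B X hX hR => ?_⟩
  by_contra hcon
  push Not at hcon
  obtain ⟨v, hv, hv0⟩ : ∃ v : Fin n → ℂ, Bᴴ *ᵥ v = 0 ∧ v ≠ 0 := by
    have := (Bᴴ.mulVecLin).ker_ne_bot_of_finrank_lt (by simpa using hmn)
    obtain ⟨v, hv, hv0⟩ := Submodule.exists_mem_ne_zero_of_ne_bot this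
    exact ⟨v, hv, hv0⟩
  have hY := hX.inv
  have hYh : (X⁻¹)ᴴ = X⁻¹ := hY.isHermitian
  have hdet : IsUnit X.det := (isUnit_iff_isUnit_det _).1 hX.isUnit
  have e1 : X * X⁻¹ = 1 := mul_nonsing_inv _ hdet
  have e2 : X⁻¹ * X = 1 := nonsing_inv_mul _ hdet
  set Y := X⁻¹ with hYdef
  set G := B * Bᴴ with hG
  have hR' : -A * X + X * A - X * G * X + 1 = 0 := by
    rw [← hR, hA, hG, Matrix.mul_assoc X B]
  have hsim : A - G * X = Y * (A - Y) * X := by
    have : X * (A - G * X) = (A - Y) * X := by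
      rw [sub_mul, e2, mul_sub, ← mul_assoc]
      rw [← sub_eq_zero, ← hR']
      noncomm_ring
    rw [mul_assoc, ← this, ← mul_assoc, e2, one_mul]
  have hGe : G = Y * Y + A * Y - Y * A := by
    have h := congrArg (fun M => Y * M * Y) hR'
    simp only [mul_add, add_mul, mul_sub, sub_mul, mul_zero, zero_mul, mul_one, neg_mul, mul_neg]
      at h
    have a1 : Y * (A * X) * Y = Y * A := by rw [mul_assoc, mul_assoc, e1, mul_one]
    have a2 : Y * (X * A) * Y = A * Y := by rw [← mul_assoc, e2, one_mul]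
    have a3 : Y * (X * G * X) * Y = G := by
      rw [← mul_assoc, ← mul_assoc, e2, one_mul, mul_assoc, e1, mul_one]
    rw [a1, a2, a3] at h
    rw [← sub_eq_zero, ← neg_eq_zero, ← h]
    abel
  have hsp : spectrum ℂ (A - G * X) = spectrum ℂ (A - Y) := by
    rw [hsim]
    exact spectrum.units_conjugate' (u := ⟨X, Y, e1, e2⟩)
  rw [hsp] at hcon
  set K := A - Y with hK
  have hn : (0 : ℝ) < n := by exact_mod_cast (Nat.zero_le m).trans_lt hmn
  have ha := fr_nonneg A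
  have hc : 0 < n * (2 * fr A + 2) + 1 := by positivity
  obtain ⟨hu, ht⟩ := trace_inv (K - 1) _ hc (by
    intro z hz
    have h1 : z + 1 ∈ spectrum ℂ K := by
      rw [spectrum.add_mem_iff]
      simpa [neg_add_eq_sub] using hz
    have := hcon _ h1
    simp at this
    linarith)
  have hd2 : IsUnit (K - 1).det := (isUnit_iff_isUnit_det _).1 hu
  have f1 : (K - 1) * (K - 1)⁻¹ = 1 := mul_nonsing_inv _ hd2
  have f2 : (K - 1)⁻¹ * (K - 1) = 1 := nonsing_inv_mul _ hd2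
  set R := (K - 1)⁻¹
  have f3 : Rᴴ * (K - 1)ᴴ = 1 := by rw [← conjTranspose_mul, f1, conjTranspose_one]
  have hsum : R + Rᴴ = -(2 : ℂ) • (Rᴴ * Y * R + Rᴴ * R) := by
    have b1 : R + Rᴴ = Rᴴ * ((K - 1)ᴴ + (K - 1)) * R := by
      rw [mul_add, add_mul, f3, one_mul, mul_assoc, f1, mul_one]
    have b2 : (K - 1)ᴴ + (K - 1) = -(2 : ℂ) • (Y + 1) := by
      rw [hK, conjTranspose_sub, conjTranspose_sub, hA, hYh, conjTranspose_one, neg_smul, two_smul]
      abel
    rw [b1, b2, mul_smul_comm, smul_mul_assoc, mul_add, add_mul, mul_one]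
  have htr : fr R ≤ -(trace R).re := by
    have h := congrArg (fun M => (trace M).re) hsum
    simp only [trace_add, trace_smul, trace_conjTranspose, ← fr_eq, smul_eq_mul] at h
    have hp := (hY.posSemidef.conjTranspose_mul_mul_same R).trace_nonneg
    have hp' := (Complex.le_def.1 hp).1
    simp at h hp'
    linarith
  have hKv : q (K *ᵥ v) = q (A *ᵥ v) := by
    have : Kᴴ * K = Aᴴ * A + G := by
      rw [hGe, hK, conjTranspose_sub, hA, hYh]
      noncomm_ring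
    have h2 : (q (K *ᵥ v) : ℂ) = q (A *ᵥ v) := by
      rw [q_mul, q_mul, this, add_mulVec, hG, ← mulVec_mulVec v B, hv, mulVec_zero, add_zero]
    exact_mod_cast h2
  have hqv : 0 < q v := by
    obtain ⟨i, hi⟩ := Function.ne_iff.1 hv0
    exact sum_pos' (fun _ _ => sq_nonneg _) ⟨i, mem_univ _, by positivity⟩
  have g1 : q v ≤ fr R * q ((K - 1) *ᵥ v) := by
    have := q_mulVec R ((K - 1) *ᵥ v)
    rwa [mulVec_mulVec, f2, one_mulVec] at this
  have g2 : q ((K - 1) *ᵥ v) ≤ (2 * fr A + 2) * q v := by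
    rw [sub_mulVec, one_mulVec]
    have := q_sub (K *ᵥ v) v
    have := q_mulVec A v
    nlinarith
  have g3 : 1 ≤ fr R * (2 * fr A + 2) := by
    have := mul_le_mul_of_nonneg_left g2 (fr_nonneg R)
    by_contra hh
    nlinarith
  have g4 : fr R * (n * (2 * fr A + 2) + 1) ≤ n := by
    rw [← le_div_iff₀ hc]
    linarith
  have g5 : 0 < fr R := by
    by_contra hh
    have : fr R = 0 := le_antisymm (not_lt.1 hh) (fr_nonneg R)
    rw [this] at g3
    linarith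
  nlinarith

end Pool.Agent.Results.MP_25d917_an.Bound
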